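import Pool.Agent.W751.RR.Stm

set_option autoImplicit false

/-! # RR-FB: the bad scalings of one configuration -/

open Polynomial Filter Topology MeasureTheory

namespace Pool.Agent.W613.RR

open Pool.Agent.W751.CD Pool.Agent.W751.RR

theorem eval_P {N : ℕ} (z : Fin N → ℂ) (w : ℂ) : (P z).eval w = ∏ i, (w - z i) := by
  unfold P
  rw [eval_prod]
  simp

theorem eval_scale {N : ℕ} (z : Fin N → ℂ) (κ w : ℂ) :
    (P fun i => κ * z i).eval (κ * w) = κ ^ N * (P z).eval w := by
  rw [eval_P, eval_P]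
  have : ∀ i, κ * w - κ * z i = κ * (w - z i) := fun i => by ring
  simp only [this]
  rw [Finset.prod_mul_distrib]
  simp

theorem der_scale {N : ℕ} (z : Fin N → ℂ) (κ w : ℂ) :
    κ * (derivative (P fun i => κ * z i)).eval (κ * w) = κ ^ N * (derivative (P z)).eval w := by
  have h : (P fun i => κ * z i).comp (C κ * X) = C (κ ^ N) * P z := by
    apply Polynomial.funext
    intro x
    rw [eval_comp, eval_mul, eval_C, eval_X, eval_scale, eval_mul, eval_C]
  have h2 := congrArg (fun p : ℂ[X] => (derivative p).eval w) h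
  simp only [derivative_comp, derivative_C_mul, derivative_X, mul_one, eval_mul, eval_C,
    eval_comp, eval_X] at h2
  exact h2

theorem der_ne {N : ℕ} (hN : 2 ≤ N) (z : Fin N → ℂ) : derivative (P z) ≠ 0 := by
  have hm : (P z).Monic := monic_prod_of_monic _ _ fun i _ => monic_X_sub_C _
  have hd : (P z).natDegree = N := by
    unfold P
    rw [natDegree_prod_of_monic _ _ fun i _ => monic_X_sub_C _]
    simp
  intro h
  have := derivative_eq_zero.mp h
  omega

theorem closed_E (ρ : ℝ) {N : ℕ} (z : Fin N → ℂ) (l : ℝ) :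
    MeasurableSet (BB ρ z ∩ {u : ℂ | l ≤ ‖u‖}) := by
  apply IsClosed.measurableSet
  refine IsClosed.inter ?_ (isClosed_le continuous_const continuous_norm)
  have h : BB ρ z = ({u : ℂ | r0 ρ / 2 ≤ ‖u‖} ∩ {u : ℂ | ‖u‖ ≤ 2 * r0 ρ} ∩
      {u : ℂ | r0 ρ / (8 * Real.exp 2) ≤ ‖(P z).eval u‖} ∩ {u : ℂ | ‖(P z).eval u‖ ≤ ρ + 3}) ∪
      ⋃ i, {u : ℂ | ‖u - z i‖ ≤ 1 / (N : ℝ) ^ 4} := by
    ext u
    simp only [BB, Set.mem_ofPred_eq, Set.mem_union, Set.mem_inter_iff, Set.mem_iUnion]
    tauto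
  rw [h]
  have hc : Continuous fun u : ℂ => ‖(P z).eval u‖ := (P z).continuous.norm
  refine IsClosed.union ?_ (isClosed_iUnion_of_finite fun i =>
    isClosed_le ((continuous_id.sub continuous_const).norm) continuous_const)
  exact (((isClosed_le continuous_const continuous_norm).inter
    (isClosed_le continuous_norm continuous_const)).inter
    (isClosed_le continuous_const hc)).inter (isClosed_le hc continuous_const)

theorem fb : S_FB := by
  intro hNU hPOW _ ρ h N hρ hr0 hNh hh hN z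
  obtain ⟨r, hr⟩ : ∃ r, r = r0 ρ := ⟨_, rfl⟩
  rw [← hr] at hr0 ⊢
  have hN1 : (0 : ℝ) < (N : ℝ) - 1 := by
    have : (2 : ℝ) ≤ N := by exact_mod_cast hN
    linarith
  have hinv : 0 < 1 / ((N : ℝ) - 1) := by positivity
  have hinv1 : 1 / ((N : ℝ) - 1) ≤ 1 := by
    rw [div_le_one hN1]
    have : (2 : ℝ) ≤ N := by exact_mod_cast hN
    linarith
  have hh0 : 0 < h := by linarith
  set E : Set ℂ := BB ρ z ∩ {u : ℂ | r / (8 * Real.exp 1) ≤ ‖u‖} with hE
  have hEm : MeasurableSet E := closed_E ρ z _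
  set Cr : Finset ℂ := (derivative (P z)).roots.toFinset.filter
    (fun c => r0 ρ * Real.exp (-(2 * h)) ≤ ‖c‖ ∧ ‖c‖ ≤ r0 ρ * Real.exp (2 * h)) with hCr
  have hsub : {κ : ℂ | 1 ≤ ‖κ‖ ∧ ‖κ‖ ≤ Real.exp (1 / ((N : ℝ) - 1)) ∧
      (fun i => κ * z i) ∈ Bad ρ h N} ⊆
      ⋃ c ∈ Cr, {κ : ℂ | κ ^ (N - 1) * (P z).eval c ∈ E} := by
    rintro κ ⟨hκ1, hκ2, -, c', hc1, hc2, hc3, hv1, hv2, hv3⟩
    have hκ0 : κ ≠ 0 := by
      intro h0
      rw [h0, norm_zero] at hκ1
      linarith
    have hκp : 0 < ‖κ‖ := norm_pos_iff.mpr hκ0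
    have hκh : ‖κ‖ ≤ Real.exp h := hκ2.trans (Real.exp_le_exp.mpr hNh)
    have hκe : ‖κ‖ ≤ Real.exp 1 := hκ2.trans (Real.exp_le_exp.mpr hinv1)
    obtain ⟨c, hc⟩ : ∃ c, c = c' / κ := ⟨_, rfl⟩
    have hcc : c' = κ * c := by rw [hc]; field_simp
    have hcn : ‖c'‖ = ‖κ‖ * ‖c‖ := by rw [hcc, norm_mul]
    rw [Set.mem_iUnion₂]
    refine ⟨c, ?_, ?_⟩
    · rw [hCr, Finset.mem_filter, Multiset.mem_toFinset, mem_roots (der_ne hN z)]
      refine ⟨?_, ?_, ?_⟩
      · have h1 := der_scale z κ c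
        rw [← hcc, hc3, mul_zero] at h1
        exact (mul_eq_zero.mp h1.symm).resolve_left (pow_ne_zero _ hκ0)
      · rw [hcn] at hc1
        have e : Real.exp (-(2 * h)) * Real.exp h = Real.exp (-h) := by
          rw [← Real.exp_add]; congr 1; ring
        have h1 : r0 ρ * Real.exp (-(2 * h)) * Real.exp h ≤ ‖c‖ * Real.exp h := by
          calc r0 ρ * Real.exp (-(2 * h)) * Real.exp h = r0 ρ * Real.exp (-h) := by
                rw [mul_assoc, e]
            _ ≤ ‖κ‖ * ‖c‖ := hc1
            _ ≤ Real.exp h * ‖c‖ := by gcongr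
            _ = _ := mul_comm _ _
        exact le_of_mul_le_mul_right h1 (Real.exp_pos h)
      · have h1 : ‖c‖ ≤ ‖c'‖ := by
          rw [hcn]
          nlinarith [norm_nonneg c]
        refine (h1.trans hc2).trans ?_
        rw [← hr]
        gcongr
        linarith
    · -- the value
      obtain ⟨u, hu⟩ : ∃ u, u = κ ^ (N - 1) * (P z).eval c := ⟨_, rfl⟩
      have hv : (P fun i => κ * z i).eval c' = κ * u := by
        rw [hcc, eval_scale, hu, ← mul_assoc, ← pow_succ']
        congr 2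
        omega
      rw [hv] at hv1 hv2 hv3
      rw [norm_mul] at hv1 hv2
      have hvv : ‖κ * u‖ = ‖κ‖ * ‖u‖ := norm_mul _ _
      change κ ^ (N - 1) * (P z).eval c ∈ E
      rw [← hu]
      have hun : 0 ≤ ‖u‖ := norm_nonneg u
      have hule : ‖u‖ ≤ ‖κ‖ * ‖u‖ := by nlinarith
      refine ⟨?_, ?_⟩
      · rcases hv3 with ⟨ha1, ha2, ha3, ha4⟩ | ⟨i, hi⟩
        · left
          rw [hvv] at ha1 ha2
          rw [eval_scale, norm_mul, norm_pow] at ha3 ha4
          have hk2 : ‖κ‖ ^ N ≤ Real.exp 2 := by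
            calc ‖κ‖ ^ N ≤ (Real.exp (1 / ((N : ℝ) - 1))) ^ N := by gcongr
              _ = Real.exp (N * (1 / ((N : ℝ) - 1))) := by rw [← Real.exp_nat_mul]
              _ ≤ Real.exp 2 := by
                  apply Real.exp_le_exp.mpr
                  rw [mul_one_div, div_le_iff₀ hN1]
                  have : (2 : ℝ) ≤ N := by exact_mod_cast hN
                  linarith
          have hk1 : 1 ≤ ‖κ‖ ^ N := one_le_pow₀ hκ1
          have hFn : 0 ≤ ‖(P z).eval u‖ := norm_nonneg _
          refine ⟨?_, ?_, ?_, ?_⟩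
          · have e : Real.exp (-h) ≥ Real.exp (-Real.log 2) * Real.exp h := by
              rw [← Real.exp_add]
              apply Real.exp_le_exp.mpr
              linarith
            rw [Real.exp_neg (Real.log 2), Real.exp_log two_pos] at e
            have h1 : r0 ρ / 2 * Real.exp h ≤ ‖u‖ * Real.exp h := by
              calc r0 ρ / 2 * Real.exp h = r0 ρ * (2⁻¹ * Real.exp h) := by ring
                _ ≤ r0 ρ * Real.exp (-h) := by
                    rw [← hr]
                    gcongr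
                _ ≤ ‖κ‖ * ‖u‖ := ha1
                _ ≤ Real.exp h * ‖u‖ := by gcongr
                _ = _ := mul_comm _ _
            exact le_of_mul_le_mul_right h1 (Real.exp_pos h)
          · have e : Real.exp h ≤ 2 := by
              rw [← Real.exp_log two_pos]
              apply Real.exp_le_exp.mpr
              linarith
            calc ‖u‖ ≤ ‖κ‖ * ‖u‖ := hule
              _ ≤ r0 ρ * Real.exp h := ha2
              _ ≤ r0 ρ * 2 := by
                  rw [← hr]
                  gcongr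
              _ = 2 * r0 ρ := mul_comm _ _
          · rw [div_le_iff₀ (by positivity)]
            have h1 : r0 ρ / 8 ≤ Real.exp 2 * ‖(P z).eval u‖ := ha3.trans (by gcongr)
            linarith
          · calc ‖(P z).eval u‖ = 1 * ‖(P z).eval u‖ := (one_mul _).symm
              _ ≤ ‖κ‖ ^ N * ‖(P z).eval u‖ := by gcongr
              _ ≤ ρ + 3 := ha4
        · right
          refine ⟨i, ?_⟩
          rw [← mul_sub, norm_mul] at hi
          refine le_trans ?_ hi
          have := norm_nonneg (u - z i)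
          nlinarith
      · change r / (8 * Real.exp 1) ≤ ‖u‖
        rw [div_le_iff₀ (by positivity)]
        have h1 : r / 8 ≤ Real.exp 1 * ‖u‖ := by
          rw [hr]
          exact hv1.trans (by gcongr)
        linarith
  -- the measure of one preimage
  have hone : ∀ c : ℂ, nu {κ : ℂ | κ ^ (N - 1) * (P z).eval c ∈ E} ≤
      ENNReal.ofReal (1 / ((N : ℝ) - 1)) * nu E := by
    intro c
    by_cases hb : (P z).eval c = 0
    · have : {κ : ℂ | κ ^ (N - 1) * (P z).eval c ∈ E} = ∅ := by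
        ext κ
        simp only [Set.mem_ofPred_eq, Set.mem_empty_iff_false, iff_false]
        rw [hb, mul_zero]
        rintro ⟨-, h1⟩
        change r / (8 * Real.exp 1) ≤ ‖(0 : ℂ)‖ at h1
        rw [norm_zero] at h1
        have : 0 < r / (8 * Real.exp 1) := by positivity
        linarith
      rw [this, measure_empty]
      exact zero_le
    · have hmeas : MeasurableSet ((fun a : ℂ => a * (P z).eval c) ⁻¹' E) :=
        (measurable_id.mul_const _) hEm
      have h1 := hPOW (N - 1) (by omega) _ hmeas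
      rw [hNU.2.1 _ hb E hEm] at h1
      have h2 : ((fun a : ℂ => a ^ (N - 1)) ⁻¹' ((fun a : ℂ => a * (P z).eval c) ⁻¹' E)) =
          {κ : ℂ | κ ^ (N - 1) * (P z).eval c ∈ E} := rfl
      rw [h2] at h1
      rw [← h1, ← mul_assoc]
      have h3 : ENNReal.ofReal (1 / ((N : ℝ) - 1)) * ((N - 1 : ℕ) : ENNReal) = 1 := by
        have h4 : ((N - 1 : ℕ) : ENNReal) = ENNReal.ofReal ((N : ℝ) - 1) := by
          rw [← ENNReal.ofReal_natCast, Nat.cast_sub (by omega)]
          simp
        rw [h4, ← ENNReal.ofReal_mul hinv.le, one_div, inv_mul_cancel₀ hN1.ne',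
          ENNReal.ofReal_one]
      rw [h3, one_mul]
  -- the measure of E
  have hnuE : nu E ≤ ENNReal.ofReal (64 * Real.exp 2 / r ^ 2) * volume (BB ρ z) := by
    unfold nu
    rw [withDensity_apply _ hEm]
    calc ∫⁻ a in E, ENNReal.ofReal ((‖a‖ ^ 2)⁻¹)
        ≤ ∫⁻ a in E, ENNReal.ofReal (64 * Real.exp 2 / r ^ 2) := by
          apply setLIntegral_mono' hEm
          rintro a ⟨-, ha⟩
          change r / (8 * Real.exp 1) ≤ ‖a‖ at ha
          apply ENNReal.ofReal_le_ofReal
          have h1 : (r / (8 * Real.exp 1)) ^ 2 ≤ ‖a‖ ^ 2 := by gcongr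
          have h2 : 64 * Real.exp 2 / r ^ 2 = ((r / (8 * Real.exp 1)) ^ 2)⁻¹ := by
            have : Real.exp 2 = Real.exp 1 ^ 2 := by
              rw [← Real.exp_nat_mul]; norm_num
            rw [this]
            field_simp
            norm_num
          rw [h2]
          exact inv_anti₀ (by positivity) h1
      _ = ENNReal.ofReal (64 * Real.exp 2 / r ^ 2) * volume E := by
          rw [lintegral_const, Measure.restrict_apply_univ]
      _ ≤ _ := by
          gcongr
          exact Set.inter_subset_left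
  calc nu {κ : ℂ | 1 ≤ ‖κ‖ ∧ ‖κ‖ ≤ Real.exp (1 / ((N : ℝ) - 1)) ∧
        (fun i => κ * z i) ∈ Bad ρ h N}
      ≤ nu (⋃ c ∈ Cr, {κ : ℂ | κ ^ (N - 1) * (P z).eval c ∈ E}) := measure_mono hsub
    _ ≤ ∑ c ∈ Cr, nu {κ : ℂ | κ ^ (N - 1) * (P z).eval c ∈ E} :=
        measure_biUnion_finset_le _ _
    _ ≤ ∑ _c ∈ Cr, ENNReal.ofReal (1 / ((N : ℝ) - 1)) * nu E :=
        Finset.sum_le_sum fun c _ => hone c
    _ = (nc ρ h z : ENNReal) * (ENNReal.ofReal (1 / ((N : ℝ) - 1)) * nu E) := by
        rw [Finset.sum_const, nsmul_eq_mul]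
        rfl
    _ ≤ (nc ρ h z : ENNReal) * (ENNReal.ofReal (1 / ((N : ℝ) - 1)) *
          (ENNReal.ofReal (64 * Real.exp 2 / r ^ 2) * volume (BB ρ z))) := by
        gcongr
    _ = _ := by ring

end Pool.Agent.W613.RR
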